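import Mathlib

namespace Pool.Agent.MP_af1bb3_co

/-- `S` is a dominating set of `G`: every vertex outside `S` has a neighbour in `S`. -/
def IsDominating {V : Type} (G : SimpleGraph V) (S : Finset V) : Prop :=
  ∀ v : V, v ∉ S → ∃ u ∈ S, G.Adj v u

/-- The domination number: the least size of a dominating set. -/
noncomputable def domNum {V : Type} (G : SimpleGraph V) : ℕ :=
  sInf {m : ℕ | ∃ S : Finset V, IsDominating G S ∧ S.card = m}

/-- The connected domination number: the least size of a dominating set inducing a connected
subgraph. -/
noncomputable def connDomNum {V : Type} (G : SimpleGraph V) : ℕ :=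
  sInf {m : ℕ | ∃ S : Finset V, IsDominating G S ∧ (G.induce (S : Set V)).Connected ∧ S.card = m}

/-- `M n k` is the maximum of `γ_c(G) - γ(G)` over connected graphs on `n` vertices with minimum
degree at least `k`. -/
noncomputable def M (n k : ℕ) : ℕ :=
  sSup {x : ℕ | ∃ G : SimpleGraph (Fin n), G.Connected ∧ (∀ v, k ≤ (G.neighborSet v).ncard) ∧
    x = connDomNum G - domNum G}

end Pool.Agent.MP_af1bb3_co
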